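import Mathlib
import Pool.Agent.H534.NW.Dhl

/-!
# Primes followed by a gap of length at most 212, at all the places of every narrow shape

A progression of twin primes is a progression of primes `p` such that `p + 2` is the next prime.  Here `2` is
replaced by an even number `h ≤ 212` (depending on the size `x` of the primes only), and the progression by
constellations `n, n + D b_1, ..., n + D b_k` of EVERY shape `b_1, ..., b_k`, for a positive proportion of the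
multiples `D = W d`, `d ≤ X`, for all `X` from a power of `log x` up to `(x / (W b_j)) ^ (1 / 3)`.
The modulus `W = WS σ b x` is small: it is the product of the primes `p ≤ (log x) ^ (1 - σ)` such that
`p ≤ log log x` or two of the numbers `0, b_1, ..., b_k` are congruent modulo `p`.

Proof.  `Pool.Agent.H534.NW`: the relative multidimensional Szemerédi theorem for shapes of polynomial size and
narrow differences, and the theorem of the library that two of 45 admissible linear forms are prime, and all of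
them rough, for a set of arguments of the right order of magnitude (`Pool.Agent.X34.E.dhl45R`).
-/

set_option autoImplicit false

open Finset Filter

namespace Pool.Agent.Results.MP_a1f59e_nt.ConstellationsOfPrimeGaps212

open Pool.Agent.H534.NW (WS Shapes)

/-- `S` is admissible: for every prime `p` there is `r` such that `p` divides no `r + s`, `s ∈ S`. -/
def Admissible (S : Finset ℤ) : Prop := ∀ p : ℕ, p.Prime → ∃ r : ℤ, ∀ s ∈ S, ¬ (p : ℤ) ∣ r + s

/-- no `n + s`, `s ∈ S`, has a prime factor `≤ y` -/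
def Rough (S : Finset ℤ) (y : ℝ) (n : ℕ) : Prop :=
  ∀ s ∈ S, ∀ p : ℕ, p.Prime → (p : ℝ) ≤ y → ¬ (p : ℤ) ∣ (n : ℤ) + s

/-- `n ≡ r (mod q)`, and the primes at distance at most `R` from `n` are exactly the numbers `n + z`, `z ∈ P` -/
def Pattern (q : ℕ) (r : ℤ) (P : Finset ℤ) (R n : ℕ) : Prop :=
  (n : ℤ) ≡ r [ZMOD q] ∧ ∀ z : ℤ, |z| ≤ R → ((∃ p : ℕ, p.Prime ∧ (p : ℤ) = n + z) ↔ z ∈ P)

/-- `p` is a prime and the next prime is `p + h` -/
def Gap (h p : ℕ) : Prop := 1 ≤ h ∧ p.Prime ∧ (p + h).Prime ∧ ∀ m : ℕ, p < m → m < p + h → ¬ m.Prime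

open Classical in
/-- the integers `1 ≤ n ≤ x` with the pattern `P` of primes and with rough `n + s`, `s ∈ S` -/
noncomputable def Points (q : ℕ) (r : ℤ) (S P : Finset ℤ) (R : ℕ) (η : ℝ) (x : ℕ) : Finset ℕ :=
  (Icc 1 x).filter (fun n => Pattern q r P R n ∧ Rough S ((x : ℝ) ^ η) n)

/-- **Two primes among 45 translates, at every narrow shape, in dense subsets.** -/
theorem dense : ∃ η : ℝ, 0 < η ∧ ∀ S : Finset ℤ, S.card = 45 → Admissible S → ∀ (q : ℕ) (r : ℤ), 0 < q →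
    (∀ s ∈ S, IsCoprime (r + s) (q : ℤ)) → ∀ R : ℕ, ∃ P : ℕ → Finset ℤ,
    (∀ x, P x ⊆ S) ∧ (∀ᶠ x in atTop, 2 ≤ (P x).card) ∧ ∀ (k : ℕ) (κ : ℝ), 1 ≤ k → 0 < κ →
    ∃ c σ : ℝ, 0 < c ∧ 0 < σ ∧ σ ≤ 1 / 2 ∧ ∃ L : ℕ, ∀ᶠ x : ℕ in atTop,
    ∀ A ⊆ Points q r S (P x) R η x, κ * ((Points q r S (P x) R η x).card : ℝ) ≤ A.card →
      Shapes k 45 c σ L x A := by
  classical
  obtain ⟨η, hη, h⟩ := Pool.Agent.H534.NW.dhlW
  refine ⟨η, hη, fun S hS hadm q r hq hr R => ?_⟩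
  obtain ⟨P, hP, hP2, hk⟩ := h S hS hadm q r hq hr R
  refine ⟨P, hP, hP2, fun k κ hk1 hκ => ?_⟩
  obtain ⟨c, σm, hc, hσm, hσm2, hsh⟩ := hk k κ hk1 hκ
  obtain ⟨L, x₀, hsh⟩ := hsh σm hσm le_rfl
  refine ⟨c, σm, hc, hσm, hσm2, L, ?_⟩
  filter_upwards [eventually_ge_atTop x₀] with x hx A hA hAc
  have e : Points q r S (P x) R η x =
      (Icc 1 x).filter (Pool.Agent.X34.E.Pt q r S (P x) R ((x : ℝ) ^ η)) := by
    ext n
    unfold Points
    rw [mem_filter, mem_filter]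
    unfold Pool.Agent.X34.E.Pt
    constructor
    · rintro ⟨h1, ⟨h2, h3⟩, h4⟩
      exact ⟨h1, h2, h3, h4⟩
    · rintro ⟨h1, h2, h3, h4⟩
      exact ⟨h1, ⟨h2, h3⟩, h4⟩
  rw [e] at hA hAc
  exact hsh x hx A hA hAc

open Classical in
/-- **Gaps of length at most `106 lcm (2, q)` in a residue class, at every narrow shape.** -/
theorem gaps (q a : ℕ) (hq : 1 ≤ q) (ha : a.Coprime q) : ∃ h : ℕ → ℕ,
    (∀ᶠ x in atTop, h x ≤ 106 * Nat.lcm 2 q ∧ Nat.lcm 2 q ∣ h x) ∧ ∀ k : ℕ, 1 ≤ k →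
    ∃ c σ : ℝ, 0 < c ∧ 0 < σ ∧ σ ≤ 1 / 2 ∧ ∃ L : ℕ, ∀ᶠ x : ℕ in atTop,
    Shapes k 45 c σ L x ((Icc 1 (2 * x)).filter (fun p => p ≡ a [MOD q] ∧ Gap (h x) p)) := by
  obtain ⟨a', ha1, ha2⟩ := Pool.Agent.X34.E.lift_class q a hq ha
  obtain ⟨M, hM⟩ : ∃ M, M = Nat.lcm 2 q := ⟨_, rfl⟩
  have hM0 : 0 < M := by rw [hM]; exact Nat.lcm_pos (by norm_num) hq
  have hqM : q ∣ M := by rw [hM]; exact Nat.dvd_lcm_right 2 q
  have h2M : 2 ∣ M := by rw [hM]; exact Nat.dvd_lcm_left 2 q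
  rw [← hM] at ha2 ⊢
  have hM0' : (M : ℤ) ≠ 0 := by exact_mod_cast hM0.ne'
  have hinj : Function.Injective (fun g : ℕ => (M : ℤ) * (g : ℤ)) := by
    intro g g' h
    have h1 : (M : ℤ) * g = M * g' := h
    exact_mod_cast mul_left_cancel₀ hM0' h1
  obtain ⟨S, hS⟩ : ∃ S : Finset ℤ, S = Pool.Agent.X34.E.G45.image (fun g : ℕ => (M : ℤ) * (g : ℤ)) := ⟨_, rfl⟩
  have hScard : S.card = 45 := by
    rw [hS, card_image_of_injective _ hinj, Pool.Agent.X34.E.G45_card]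
  have hSadm : Admissible S := by
    intro p hp
    by_cases hpM : p ∣ M
    · refine ⟨1, fun s hs hd => ?_⟩
      rw [hS] at hs
      obtain ⟨g, -, rfl⟩ := mem_image.1 hs
      have h1 : (p : ℤ) ∣ (M : ℤ) * g := (Int.natCast_dvd_natCast.2 hpM).mul_right _
      have h2 : (p : ℤ) ∣ 1 := (dvd_add_left h1).1 hd
      have h3 := Int.natCast_dvd_natCast.1 (show ((p : ℕ) : ℤ) ∣ ((1 : ℕ) : ℤ) by exact_mod_cast h2)
      exact hp.one_lt.ne' (Nat.dvd_one.1 h3)
    · obtain ⟨r, hr⟩ := Pool.Agent.X34.E.G45_adm p hp (fun h => hpM (h ▸ h2M))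
      refine ⟨M * r, fun s hs hd => ?_⟩
      rw [hS] at hs
      obtain ⟨g, hg, rfl⟩ := mem_image.1 hs
      have h1 : (M : ℤ) * r + M * g = ((M * (r + g) : ℕ) : ℤ) := by push_cast; ring
      rw [h1, Int.natCast_dvd_natCast, hp.dvd_mul] at hd
      rcases hd with h2 | h2
      · exact hpM h2
      · exact hr g hg h2
  obtain ⟨η, -, hden⟩ := dense
  obtain ⟨P, hP, hP2, hsh⟩ := hden S hScard hSadm M a' hM0 (fun s hs => by
    rw [hS] at hs
    obtain ⟨g, -, rfl⟩ := mem_image.1 hs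
    have h1 : IsCoprime (a' : ℤ) (M : ℤ) := Nat.isCoprime_iff_coprime.2 ha2
    exact (IsCoprime.add_mul_left_left h1 (g : ℤ))) (106 * M)
  -- the two smallest elements
  have hmin : ∀ x : ℕ, ∃ g₀ g₁ : ℕ, 2 ≤ (P x).card → g₀ < g₁ ∧ g₁ ≤ 106 ∧ (M : ℤ) * g₀ ∈ P x ∧ (M : ℤ) * g₁ ∈ P x ∧
      ∀ z ∈ P x, (M : ℤ) * g₀ < z → (M : ℤ) * g₁ ≤ z := by
    intro x
    by_cases hc : 2 ≤ (P x).card
    swap
    · exact ⟨0, 0, fun h => absurd h hc⟩
    have hne : (P x).Nonempty := by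
      rw [← card_pos]; omega
    obtain ⟨z₀, hz₀, hz₀m⟩ := exists_min_image (P x) id hne
    have hne1 : ((P x).erase z₀).Nonempty := by
      rw [← card_pos, card_erase_of_mem hz₀]; omega
    obtain ⟨z₁, hz₁, hz₁m⟩ := exists_min_image ((P x).erase z₀) id hne1
    obtain ⟨hz1a, hz1b⟩ := mem_erase.1 hz₁
    have m0 := hP x hz₀
    have m1 := hP x hz1b
    rw [hS] at m0 m1
    obtain ⟨g₀, hg₀, e0⟩ := mem_image.1 m0
    obtain ⟨g₁, hg₁, e1⟩ := mem_image.1 m1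
    refine ⟨g₀, g₁, fun _ => ⟨?_, Pool.Agent.X34.E.G45_le g₁ hg₁, by rw [e0]; exact hz₀, by rw [e1]; exact hz1b, ?_⟩⟩
    · have h1 : z₀ < z₁ := lt_of_le_of_ne (hz₀m z₁ hz1b) (Ne.symm hz1a)
      rw [← e0, ← e1] at h1
      have h2 : (g₀ : ℤ) < g₁ := lt_of_mul_lt_mul_left h1 (by positivity)
      exact_mod_cast h2
    · intro z hz hlt
      rw [e0] at hlt
      rw [e1]
      exact hz₁m z (mem_erase.2 ⟨hlt.ne', hz⟩)
  choose g₀ g₁ hg using hmin
  refine ⟨fun x => M * (g₁ x - g₀ x), ?_, fun k hk => ?_⟩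
  · filter_upwards [hP2] with x hx
    obtain ⟨h1, h2, -⟩ := hg x hx
    refine ⟨?_, dvd_mul_right _ _⟩
    rw [mul_comm]
    exact Nat.mul_le_mul_right _ (by omega)
  · obtain ⟨c, σ, hc, hσ, hσ2, L, hev⟩ := hsh k 1 hk one_pos
    refine ⟨c, σ, hc, hσ, hσ2, L, ?_⟩
    filter_upwards [hev, hP2, eventually_ge_atTop (106 * M)] with x h1 h2 h3
    obtain ⟨e1, e2, e3, e4, e5⟩ := hg x h2
    refine (h1 _ (Finset.Subset.refl _) (by rw [one_mul])).add (M * g₀ x) (fun n hn => ?_)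
    unfold Points at hn
    rw [mem_filter, mem_Icc] at hn
    obtain ⟨⟨n1, n2⟩, ⟨n3, n4⟩, -⟩ := hn
    have hgle : M * g₀ x ≤ 106 * M := by
      rw [mul_comm]
      exact Nat.mul_le_mul_right _ (by omega)
    have hgle1 : M * g₁ x ≤ 106 * M := by
      rw [mul_comm]
      exact Nat.mul_le_mul_right _ (by omega)
    have habs : ∀ z : ℤ, 0 ≤ z → z ≤ (M : ℤ) * g₁ x → |z| ≤ ((106 * M : ℕ) : ℤ) := by
      intro z hz0 hz1
      rw [abs_of_nonneg hz0]
      have : ((M * g₁ x : ℕ) : ℤ) ≤ ((106 * M : ℕ) : ℤ) := by exact_mod_cast hgle1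
      rw [Nat.cast_mul] at this
      linarith
    have hlt : M * g₀ x < M * g₁ x := Nat.mul_lt_mul_of_pos_left e1 hM0
    have hlt' : (M : ℤ) * g₀ x < (M : ℤ) * g₁ x := by exact_mod_cast hlt
    have hsplit : M * (g₁ x - g₀ x) + M * g₀ x = M * g₁ x := by
      rw [← Nat.mul_add, Nat.sub_add_cancel e1.le]
    rw [mem_filter, mem_Icc]
    refine ⟨⟨by omega, by omega⟩, ?_, ?_, ?_, ?_, ?_⟩
    · have h4 : n ≡ a' [MOD M] := Int.natCast_modEq_iff.1 n3
      have h5 : n + M * g₀ x ≡ a' + 0 [MOD M] := h4.add ((Nat.modEq_zero_iff_dvd).2 (dvd_mul_right _ _))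
      rw [add_zero] at h5
      exact (h5.of_dvd hqM).trans ha1
    · exact Nat.mul_pos hM0 (by omega)
    · obtain ⟨p, hp, hpe⟩ := (n4 _ (habs _ (by positivity) hlt'.le)).2 e3
      have : p = n + M * g₀ x := by exact_mod_cast hpe
      rw [← this]; exact hp
    · obtain ⟨p, hp, hpe⟩ := (n4 _ (habs _ (by positivity) le_rfl)).2 e4
      have : p = n + M * g₁ x := by exact_mod_cast hpe
      have e : n + M * g₀ x + M * (g₁ x - g₀ x) = n + M * g₁ x := by omega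
      rw [e, ← this]; exact hp
    · intro m hm1 hm2 hm3
      have h4 : (M : ℤ) * g₀ x < (m : ℤ) - n := by
        have : ((n + M * g₀ x : ℕ) : ℤ) < m := by exact_mod_cast hm1
        push_cast at this
        linarith
      have h5 : (m : ℤ) - n < (M : ℤ) * g₁ x := by
        have e : n + M * g₀ x + M * (g₁ x - g₀ x) = n + M * g₁ x := by omega
        rw [e] at hm2
        have : (m : ℤ) < ((n + M * g₁ x : ℕ) : ℤ) := by exact_mod_cast hm2
        push_cast at this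
        linarith
      have h0 : (0 : ℤ) ≤ (M : ℤ) * g₀ x := by positivity
      have h6 := (n4 ((m : ℤ) - n) (habs _ (by linarith) h5.le)).1 ⟨m, hm3, by ring⟩
      have h7 := e5 _ h6 h4
      linarith

/-- **Prime gaps of length at most 212 at every narrow shape.**
`Shapes k s c σ L x A`: for every `X ≥ (log x) ^ L` and ALL distinct `b_1, ..., b_k ≥ 1` with `b_j W X ^ 3 ≤ x`,
`W = WS σ b x`, at least `c X` of the `d ≤ X` are such that for at least `c x / (log x) ^ (s (k + 1))` elements `n`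
of `A` all the `n + W d b_j` are elements of `A`.
(1) Let `a` be prime to `q ≥ 1`.  For every large `x` there is a multiple `h = h x` of `lcm (2, q)`, at most
`106 lcm (2, q)` (so `h ≤ 212` is even if `q = 1`), such that for all `k` (with `c`, `σ`, `L` independent of `x`) the
set of the primes `p ≤ 2 x`, `p ≡ a` modulo `q`, such that `p + h` is the next prime, has the property
`Shapes k 45 c σ L x`.
(2) There is `η > 0` such that for every admissible set `S` of 45 integers, all `q`, `r` with all `r + s` prime to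
`q` and every `R`, there are subsets `P x` of `S`, with at least two elements for large `x`, such that for all `k`
and `κ > 0` every set `A` of at least `κ |Points|` of the `Points q r S (P x) R η x` (`n ≤ x`, `n ≡ r` modulo `q`, the
primes at distance at most `R` from `n` are the `n + z`, `z ∈ P x`, all `n + s` are free of prime factors
`≤ x ^ η`) has the property `Shapes k 45 c σ L x`, for large `x`.
(3) For every nonempty admissible set `S` and all `k`, `g`, `η`, `κ` every set `A` of at least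
`κ H / (log H) ^ |S|` integers of `(Y, Y + H]`, `Y ≤ H ^ g`, such that all `n + s`, `s ∈ S`, `n ∈ A`, are free of prime
factors `≤ H ^ η`, has the property `Shapes k |S| c σ L H`; for `S = {0, 2}` this applies to the first members of
twin prime pairs, if there are as many as expected. -/
theorem result :
    (∀ q a : ℕ, 1 ≤ q → a.Coprime q → ∃ h : ℕ → ℕ,
      (∀ᶠ x in atTop, h x ≤ 106 * Nat.lcm 2 q ∧ Nat.lcm 2 q ∣ h x) ∧ ∀ k : ℕ, 1 ≤ k →
      ∃ c σ : ℝ, 0 < c ∧ 0 < σ ∧ σ ≤ 1 / 2 ∧ ∃ L : ℕ, ∀ᶠ x : ℕ in atTop,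
      Shapes k 45 c σ L x (open Classical in (Icc 1 (2 * x)).filter (fun p => p ≡ a [MOD q] ∧ Gap (h x) p))) ∧
    (∃ η : ℝ, 0 < η ∧ ∀ S : Finset ℤ, S.card = 45 → Admissible S → ∀ (q : ℕ) (r : ℤ), 0 < q →
      (∀ s ∈ S, IsCoprime (r + s) (q : ℤ)) → ∀ R : ℕ, ∃ P : ℕ → Finset ℤ,
      (∀ x, P x ⊆ S) ∧ (∀ᶠ x in atTop, 2 ≤ (P x).card) ∧ ∀ (k : ℕ) (κ : ℝ), 1 ≤ k → 0 < κ →
      ∃ c σ : ℝ, 0 < c ∧ 0 < σ ∧ σ ≤ 1 / 2 ∧ ∃ L : ℕ, ∀ᶠ x : ℕ in atTop,
      ∀ A ⊆ Points q r S (P x) R η x, κ * ((Points q r S (P x) R η x).card : ℝ) ≤ A.card →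
        Shapes k 45 c σ L x A) ∧
    (∀ S : Finset ℤ, Admissible S → S.Nonempty → ∀ (k g : ℕ) (η κ : ℝ), 1 ≤ k → 0 < η → 0 < κ →
      ∃ c σ : ℝ, 0 < c ∧ 0 < σ ∧ σ ≤ 1 / 2 ∧ ∃ L H₀ : ℕ, ∀ (Y H : ℕ) (A : Finset ℕ), H₀ ≤ H → Y ≤ H ^ g →
      A ⊆ Ioc Y (Y + H) → (∀ n ∈ A, Rough S ((H : ℝ) ^ η) n) → κ * (H / Real.log H ^ S.card) ≤ A.card →
      Shapes k S.card c σ L H A) := by
  refine ⟨fun q a hq ha => gaps q a hq ha, dense, fun S hS hne k g η κ hk hη hκ => ?_⟩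
  obtain ⟨c, σm, hc, hσm, hσm2, h⟩ := Pool.Agent.H534.NW.tupW S hS hne k g η κ hk hη hκ
  obtain ⟨L, H₀, h⟩ := h σm hσm le_rfl
  exact ⟨c, σm, hc, hσm, hσm2, L, H₀, h⟩

end Pool.Agent.Results.MP_a1f59e_nt.ConstellationsOfPrimeGaps212
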