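import Pool.Agent.H530.HaU

/-!
# Progressions of patterns of almost primes with an odd number of prime factors: dilates along finite sums

For every finite set `F` of natural numbers (for instance `{0, 1}`) there are `R`, `N` and `P` such that
among the finite sums of any `N` numbers there is one, `s`, for which, with `m = P s`, arbitrarily long and
arbitrarily large narrow progressions of integers `n` exist such that all the `n + m f`, `f ∈ F`, have an
odd number of prime factors, all larger than the `R`-th root. In particular the set of these `m` has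
positive lower density.
-/

set_option autoImplicit false

namespace Pool.Agent.Results.MP_a1f59e_nt.DilatesAlongSums

open Finset

/-- `m` has an odd number of prime factors (with multiplicity), and all of them are larger than the
`R`-th root of `m`; so `m` has at most `R` prime factors -/
def OddAlmost (R m : ℕ) : Prop :=
  Odd (ArithmeticFunction.cardFactors m) ∧ ∀ p : ℕ, p.Prime → p ∣ m → m < p ^ R

/-- for every `l` there are a `B` and arbitrarily large `n` such that for some `1 ≤ D ≤ (log n) ^ B` all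
the `n + j D + m f`, `j < l`, `f ∈ F`, are `OddAlmost R` -/
def Dilate (R : ℕ) (F : Finset ℕ) (m : ℕ) : Prop := ∀ l : ℕ, ∃ B : ℕ, ∀ N : ℕ, ∃ n D : ℕ, N ≤ n ∧ 1 ≤ D ∧
  (D : ℝ) ≤ Real.log n ^ B ∧ ∀ j < l, ∀ f ∈ F, OddAlmost R (n + j * D + m * f)

open Classical in
/-- **Dilates of every pattern along finite sums, and their density.** -/
theorem result (F : Finset ℕ) : ∃ R : ℕ,
    (∃ N P : ℕ, 1 ≤ P ∧ ∀ x : Fin N → ℕ, ∃ I : Finset (Fin N), I.Nonempty ∧ Dilate R F (P * ∑ i ∈ I, x i)) ∧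
    ∃ C : ℕ, ∀ x : ℕ, x ≤ C * (((Icc 1 x).filter (fun m => Dilate R F m)).card + 1) := by
  obtain ⟨L, hL⟩ : ∃ L : ℕ, L = F.sup id + 1 := ⟨_, rfl⟩
  have hFL : ∀ f ∈ F, f < L := by
    intro f hf
    have : f ≤ F.sup id := le_sup (f := id) hf
    omega
  obtain ⟨N, P, R, hP, H⟩ := Pool.Agent.H530.Ha.ipdil L (by omega)
  have H1 : ∀ x : Fin N → ℕ, ∃ I : Finset (Fin N), I.Nonempty ∧ Dilate R F (P * ∑ i ∈ I, x i) := by
    intro x
    obtain ⟨I, hI, h⟩ := H x
    refine ⟨I, hI, fun l => ?_⟩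
    obtain ⟨B, hB⟩ := h l
    refine ⟨B, fun N' => ?_⟩
    obtain ⟨n, D, h1, h2, h3, h4⟩ := hB N'
    exact ⟨n, D, h1, h2, h3, fun j hj f hf => h4 j hj f (hFL f hf)⟩
  refine ⟨R, ⟨N, P, hP, H1⟩, ?_⟩
  -- multiples
  obtain ⟨Q, hQ⟩ : ∃ Q : ℕ, Q = P * N := ⟨_, rfl⟩
  have hN : 1 ≤ N := by
    obtain ⟨I, ⟨i, hi⟩, -⟩ := H1 (fun _ => 1)
    have := i.2
    omega
  have hQ1 : 1 ≤ Q := by rw [hQ]; exact Nat.mul_pos hP hN
  have key : ∀ M : ℕ, 1 ≤ M → ∃ d : ℕ, 1 ≤ d ∧ d ≤ Q ∧ Dilate R F (d * M) := by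
    intro M hM
    obtain ⟨I, hI, h⟩ := H1 (fun _ => M)
    rw [sum_const, smul_eq_mul, ← mul_assoc] at h
    have h1 : I.card ≤ N := by
      have := card_le_univ I
      rwa [Fintype.card_fin] at this
    refine ⟨P * I.card, Nat.mul_pos hP (card_pos.2 hI), ?_, h⟩
    rw [hQ]
    exact Nat.mul_le_mul_left _ h1
  refine ⟨Q ^ 2 + Q, fun x => ?_⟩
  set S := (Icc 1 x).filter (fun m => Dilate R F m) with hS
  have h1 : Icc 1 (x / Q) ⊆ (Icc 1 Q).biUnion (fun d => S.image (fun m => m / d)) := by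
    intro M hM
    rw [mem_Icc] at hM
    obtain ⟨d, hd1, hd2, hd3⟩ := key M hM.1
    rw [mem_biUnion]
    refine ⟨d, mem_Icc.2 ⟨hd1, hd2⟩, ?_⟩
    rw [mem_image]
    refine ⟨d * M, ?_, Nat.mul_div_cancel_left M (by omega)⟩
    rw [hS, mem_filter, mem_Icc]
    refine ⟨⟨Nat.mul_pos hd1 hM.1, ?_⟩, hd3⟩
    calc d * M ≤ Q * (x / Q) := Nat.mul_le_mul hd2 hM.2
      _ ≤ x := Nat.mul_div_le x Q
  have h2 := (card_le_card h1).trans card_biUnion_le
  have h3 : ∑ d ∈ Icc 1 Q, (S.image (fun m => m / d)).card ≤ ∑ _d ∈ Icc 1 Q, S.card := sum_le_sum fun d _ => card_image_le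
  rw [sum_const, Nat.card_Icc, smul_eq_mul, Nat.add_sub_cancel] at h3
  rw [Nat.card_Icc, Nat.add_sub_cancel] at h2
  have h4 : x / Q ≤ Q * S.card := h2.trans h3
  have h5 : x < Q * (x / Q + 1) := Nat.lt_mul_div_succ x (by omega)
  have h6 : Q * (x / Q) ≤ Q * (Q * S.card) := Nat.mul_le_mul_left _ h4
  nlinarith

end Pool.Agent.Results.MP_a1f59e_nt.DilatesAlongSums
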