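import Pool.Graph.R_pool_sql_team_seeded_b677cdb8.E8helper70.AP.Main

/-!
# Narrow arithmetic progressions of prime pairs `(p, p + h)`, for almost all even `h`

For twin primes the question is whether there are arbitrarily long progressions of primes `p` with `p + 2` prime. We
prove this, in a strong form, for almost all even numbers `h` in place of `2`: for all even `h ≤ X` but `X / (log X) ^ U`
of them there are many primes `p ≤ X` with `p + h` prime and, whatever set `A` of such primes is given, all but an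
arbitrarily small proportion of them are members of `l`-term progressions in `A` with a difference which is at most a
power of `log X`.

The theorem for dense sets of pairs and almost all `h` is the final theorem of the library project `E8helper70/AP`
(helper70 and team), built on the relative Szemerédi theorem for sifted sets of the library (`Y677/RSZ`).
-/

set_option autoImplicit false

namespace Pool.Agent.Results.MP_a1f59e_nt.PrimePairsAlmostAllGaps

open Finset

/-- the primes `p ≤ X` for which `p + h` is prime -/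
def pairs (h X : ℕ) : Finset ℕ := (Icc 1 X).filter (fun p => p.Prime ∧ (p + h).Prime)

/-- `p` is a member of a progression `a, a + d, …, a + (l - 1) d` of elements of `A` with `1 ≤ d ≤ D` -/
def InProgression (A : Finset ℕ) (l : ℕ) (D : ℝ) (p : ℕ) : Prop :=
  ∃ a d : ℕ, 1 ≤ d ∧ (d : ℝ) ≤ D ∧ (∀ i < l, a + i * d ∈ A) ∧ ∃ j < l, p = a + j * d

open Classical in
/-- what is proved for almost all even `h ≤ X`: (1) the number of the primes `p ≤ X` with `p + h` prime is at least
`(1 / 64) (h / φ(h)) X / (log X) ^ 2`; (2) for every set `A` of such primes all but at most the proportion `ε` of all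
such primes are members of `l`-term progressions of elements of `A` with differences at most `(log X) ^ B`; (3) if `A`
contains at least the proportion `2 ε` of all such primes, then for some `d ≤ (log X) ^ B` there are at least
`X / (log X) ^ (B + 3)` progressions of `l` elements of `A` with the same difference `d`. -/
def Good (l B X : ℕ) (ε : ℝ) (h : ℕ) : Prop :=
  1 / 64 * ((h : ℝ) / h.totient) * (X / Real.log X ^ 2) ≤ (pairs h X).card ∧
  ∀ A ⊆ pairs h X,
    ((A.filter fun p => ¬ InProgression A l (Real.log X ^ B) p).card : ℝ) ≤ ε * (pairs h X).card ∧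
    (2 * ε * (pairs h X).card ≤ A.card → ∃ d : ℕ, 1 ≤ d ∧ (d : ℝ) ≤ Real.log X ^ B ∧
      (X : ℝ) / Real.log X ^ (B + 3) ≤ (A.filter fun a => ∀ i < l, a + i * d ∈ A).card)

open Classical in
/-- pigeonhole -/
theorem common_difference (A : Finset ℕ) (l : ℕ) (hl : 1 ≤ l) (D T : ℝ) (hD : 0 ≤ D) (hT : 0 ≤ T)
    (hG : ∀ d : ℕ, 1 ≤ d → (d : ℝ) ≤ D → ((A.filter fun a => ∀ i < l, a + i * d ∈ A).card : ℝ) < T) :
    ((A.filter fun p => InProgression A l D p).card : ℝ) ≤ D * (l * T) := by
  set G : ℕ → Finset ℕ := fun d => A.filter fun a => ∀ i < l, a + i * d ∈ A with hGd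
  have hsub : (A.filter fun p => InProgression A l D p) ⊆
      (Icc 1 ⌊D⌋₊).biUnion fun d => (range l).biUnion fun j => (G d).image fun a => a + j * d := by
    intro p hp
    obtain ⟨hpA, a, d, hd1, hd2, hAP, j, hj, rfl⟩ := mem_filter.1 hp
    refine mem_biUnion.2 ⟨d, mem_Icc.2 ⟨hd1, Nat.le_floor hd2⟩, mem_biUnion.2 ⟨j, mem_range.2 hj,
      mem_image.2 ⟨a, mem_filter.2 ⟨?_, hAP⟩, rfl⟩⟩⟩
    have := hAP 0 (by omega)
    rwa [zero_mul, add_zero] at this
  have h1 : (A.filter fun p => InProgression A l D p).card ≤ ∑ d ∈ Icc 1 ⌊D⌋₊, l * (G d).card := by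
    refine (card_le_card hsub).trans (card_biUnion_le.trans (sum_le_sum fun d _ => ?_))
    refine card_biUnion_le.trans ((sum_le_sum fun j _ => card_image_le).trans ?_)
    rw [sum_const, card_range, smul_eq_mul]
  have h2 : ((A.filter fun p => InProgression A l D p).card : ℝ) ≤ ∑ d ∈ Icc 1 ⌊D⌋₊, (l : ℝ) * T := by
    calc ((A.filter fun p => InProgression A l D p).card : ℝ)
        ≤ ((∑ d ∈ Icc 1 ⌊D⌋₊, l * (G d).card : ℕ) : ℝ) := by exact_mod_cast h1
      _ = ∑ d ∈ Icc 1 ⌊D⌋₊, (l : ℝ) * (G d).card := by push_cast; rfl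
      _ ≤ ∑ d ∈ Icc 1 ⌊D⌋₊, (l : ℝ) * T := by
        refine sum_le_sum fun d hd => ?_
        rw [mem_Icc] at hd
        have h3 := hG d hd.1 ((Nat.le_floor_iff hD).1 hd.2)
        gcongr
  refine h2.trans ?_
  rw [sum_const, Nat.card_Icc, Nat.add_sub_cancel, nsmul_eq_mul]
  have h4 : ((⌊D⌋₊ : ℕ) : ℝ) ≤ D := Nat.floor_le hD
  gcongr

open Classical in
/-- **Narrow progressions of prime pairs for almost all even gaps.** For all `l ≥ 1`, `U` and `ε > 0` there are `B` and
`X₀` such that for all `X ≥ X₀` all even `h ≤ X` with at most `X / (log X) ^ U` exceptions are `Good`. -/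
theorem result (l U : ℕ) (hl : 1 ≤ l) (ε : ℝ) (hε : 0 < ε) : ∃ B X₀ : ℕ, ∀ X : ℕ, X₀ ≤ X →
    (((Icc 1 X).filter fun h : ℕ => Even h ∧ ¬ Good l B X ε h).card : ℝ) ≤ X / Real.log X ^ U := by
  obtain ⟨B, X₁, hB⟩ := Pool.Agent.E8helper70.AP.main l U ε hε
  have hlogt : Filter.Tendsto (fun X : ℕ => Real.log X) Filter.atTop Filter.atTop :=
    Real.tendsto_log_atTop.comp tendsto_natCast_atTop_atTop
  obtain ⟨X₂, hX₂⟩ := Filter.eventually_atTop.1
    ((hlogt.eventually_ge_atTop 1).and (hlogt.eventually_gt_atTop (64 * l / ε)))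
  refine ⟨B, max X₁ (max X₂ 1), fun X hX => ?_⟩
  have b1 : X₁ ≤ X := le_trans (le_max_left _ _) hX
  have b2 : X₂ ≤ X := le_trans (le_trans (le_max_left _ _) (le_max_right _ _)) hX
  have b3 : 1 ≤ X := le_trans (le_trans (le_max_right _ _) (le_max_right _ _)) hX
  obtain ⟨hL1, hL2⟩ := hX₂ X b2
  refine le_trans ?_ (hB X b1)
  have hX0 : (0 : ℝ) < X := by exact_mod_cast b3
  have hL0 : 0 < Real.log X := by linarith
  have hsub : ((Icc 1 X).filter fun h : ℕ => Even h ∧ ¬ Good l B X ε h) ⊆
      (Icc 1 X).filter (fun h : ℕ => Even h ∧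
        ¬ (1 / 64 * ((h : ℝ) / h.totient) * (X / Real.log X ^ 2) ≤ (Pool.Agent.E8helper70.AP.pairs h X).card ∧
          ∀ A ⊆ Pool.Agent.E8helper70.AP.pairs h X, ε * (Pool.Agent.E8helper70.AP.pairs h X).card ≤ A.card →
            ∃ a d : ℕ, 1 ≤ d ∧ (d : ℝ) ≤ Real.log X ^ B ∧ ∀ i < l, a + i * d ∈ A)) := by
    intro h hh
    rw [mem_filter] at hh ⊢
    refine ⟨hh.1, hh.2.1, fun hgood => hh.2.2 ?_⟩
    have hh1 : 1 ≤ h := (mem_Icc.1 hh.1).1
    have e : Pool.Agent.E8helper70.AP.pairs h X = pairs h X := rfl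
    rw [e] at hgood
    obtain ⟨g1, g2⟩ := hgood
    have key : ∀ A ⊆ pairs h X,
        ((A.filter fun p => ¬ InProgression A l (Real.log X ^ B) p).card : ℝ) ≤ ε * (pairs h X).card := by
      intro A hA
      by_contra hcon
      rw [not_le] at hcon
      obtain ⟨a, d, hd1, hd2, hAP⟩ := g2 (A.filter fun p => ¬ InProgression A l (Real.log X ^ B) p)
        ((filter_subset _ _).trans hA) hcon.le
      have h1 := (mem_filter.1 (hAP 0 (by omega))).2
      exact h1 ⟨a, d, hd1, hd2, fun i hi => (mem_filter.1 (hAP i hi)).1, 0, by omega, rfl⟩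
    refine ⟨g1, fun A hA => ⟨key A hA, fun hA2 => ?_⟩⟩
    by_contra hcon
    push Not at hcon
    have h1 := common_difference A l hl (Real.log X ^ B) (X / Real.log X ^ (B + 3)) (by positivity)
      (by positivity) hcon
    have h2 := key A hA
    have h3 : (A.card : ℝ) = (A.filter fun p => InProgression A l (Real.log X ^ B) p).card +
        (A.filter fun p => ¬ InProgression A l (Real.log X ^ B) p).card := by
      have := Finset.card_filter_add_card_filter_not (s := A) (fun p => InProgression A l (Real.log X ^ B) p)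
      exact_mod_cast this.symm
    have h4 : ε * (1 / 64 * (X / Real.log X ^ 2)) ≤ ε * (pairs h X).card := by
      have h5 := Pool.Agent.E8helper70.AP.ratio_ge h hh1
      have h6 : (0 : ℝ) ≤ X / Real.log X ^ 2 := by positivity
      have h7 : 1 / 64 * ((X : ℝ) / Real.log X ^ 2) ≤ (pairs h X).card := by
        refine le_trans ?_ g1
        have := mul_le_mul_of_nonneg_right h5 h6
        rw [one_mul] at this
        linarith
      exact mul_le_mul_of_nonneg_left h7 hε.le
    have h5 : Real.log X ^ B * (l * (X / Real.log X ^ (B + 3))) = l * (X / Real.log X ^ 2) / Real.log X := by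
      rw [pow_add]
      field_simp
    have h6 : ε * (1 / 64 * (X / Real.log X ^ 2)) ≤ l * (X / Real.log X ^ 2) / Real.log X := by
      rw [← h5]
      linarith
    rw [le_div_iff₀ hL0] at h6
    have h7 : 0 < (X : ℝ) / Real.log X ^ 2 := by positivity
    have h8 : ε * (1 / 64 * Real.log X) ≤ l := by
      by_contra hc
      rw [not_le] at hc
      have := mul_lt_mul_of_pos_right hc h7
      nlinarith
    rw [div_lt_iff₀ hε] at hL2
    linarith
  exact_mod_cast card_le_card hsub

end Pool.Agent.Results.MP_a1f59e_nt.PrimePairsAlmostAllGaps
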