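import Pool.Agent.H530.HzQ

/-!
# Progressions of three almost prime twins with all eight parity patterns

Let `H₁`, `H₂`, `H₃` be admissible `k`-tuples of integers of any size (for twins all three are `(0, 2)`). For `X` large and
`y ^ K ≤ X` let `G_j` be the set of the `n ≤ X` for which none of the `k` numbers `n + H_j i` has a prime factor
`≤ y`. Put `δ = 2 ^ (-⌊K / A⌋)`.

* Without local obstruction (there is none if `H₁ = H₂ = H₃`) the number of the progressions `n₁`, `n₂`, `n₃` with `n_j ∈ G_j`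
  and difference of either sign has the right order of magnitude, and the parities of the numbers of prime factors
  of `n₁ + b₁`, `n₂ + b₂`, `n₃ + b₃` are independent: each of the eight patterns has share `1 / 8`, up to `δ`.
* For arbitrary subsets of `G₁`, `G₃` (for example true prime twins) the parity at the middle term is still balanced.
* For twins: increasing progressions `n, n + m, n + 2 m` with `n`, `n + 2`, `n + m`, `n + m + 2`, `n + 2 m`, `n + 2 m + 2`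
  almost prime and `n`, `n + m`, `n + 2 m` all with an odd number of prime factors.
-/

set_option autoImplicit false

namespace Pool.Agent.Results.MP_a1f59e_nt.ThreeTermParities

open Finset

open Classical in
/-- the `n`, `1 ≤ n ≤ X`, for which none of the numbers `n + H i` has a prime factor up to `y` -/
noncomputable def rough {k : ℕ} (H : Fin k → ℤ) (y X : ℕ) : Finset ℕ :=
  (Icc 1 X).filter (fun n => ∀ p : ℕ, p.Prime → p ≤ y → ∀ i, ¬ (p : ℤ) ∣ n + H i)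

/-- no prime divides the product of the `n + H i` for all integers `n` -/
def Admissible {k : ℕ} (H : Fin k → ℤ) : Prop := ∀ p : ℕ, p.Prime → ∃ n : ℤ, ∀ i, ¬ (p : ℤ) ∣ n + H i

/-- no local obstruction to progressions: for every prime `p ≤ 2 k` there are `n`, `m` such that `p` divides none of the
`n + H₁ i`, `n + m + H₂ i`, `n + 2 m + H₃ i` -/
def Soluble {k : ℕ} (H₁ H₂ H₃ : Fin k → ℤ) : Prop :=
  ∀ p : ℕ, p.Prime → p ≤ 2 * k → ∃ n m : ℤ, (∀ i, ¬ (p : ℤ) ∣ n + H₁ i) ∧ (∀ i, ¬ (p : ℤ) ∣ n + m + H₂ i) ∧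
    ∀ i, ¬ (p : ℤ) ∣ n + 2 * m + H₃ i

open Classical in
/-- the progressions, with difference of either sign: the `(n₁, n₃, n₂)` with `n₁ + n₃ = 2 n₂` and `n_j` in
`rough H_j y X` -/
noncomputable def progs {k : ℕ} (H₁ H₂ H₃ : Fin k → ℤ) (X y : ℕ) : Finset (ℕ × ℕ × ℕ) :=
  (rough H₁ y X ×ˢ rough H₃ y X ×ˢ rough H₂ y X).filter (fun t => t.1 + t.2.1 = 2 * t.2.2)

/-- `m` is not zero and its number of prime factors is odd (`s` true), or even (`s` false) -/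
def Par (s : Bool) (m : ℤ) : Prop := m ≠ 0 ∧ (Odd (ArithmeticFunction.cardFactors m.natAbs) ↔ s = true)

open Classical in
/-- the progressions at which `n₁ + b₁`, `n₂ + b₂`, `n₃ + b₃` have the parities `s₁`, `s₂`, `s₃` -/
noncomputable def pattern {k : ℕ} (H₁ H₂ H₃ : Fin k → ℤ) (X y : ℕ) (b₁ b₂ b₃ : ℤ) (s₁ s₂ s₃ : Bool) :
    Finset (ℕ × ℕ × ℕ) :=
  (progs H₁ H₂ H₃ X y).filter (fun t => Par s₁ (t.1 + b₁) ∧ Par s₃ (t.2.1 + b₃) ∧ Par s₂ (t.2.2 + b₂))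

open Classical in
/-- the progressions with `n₁ ∈ S₁`, `n₃ ∈ S₃` at which `n₂ + b` has the parity `s` -/
noncomputable def within {k : ℕ} (H₁ H₂ H₃ : Fin k → ℤ) (X y : ℕ) (S₁ S₃ : Finset ℕ) (b : ℤ) (s : Bool) :
    Finset (ℕ × ℕ × ℕ) :=
  (progs H₁ H₂ H₃ X y).filter (fun t => t.1 ∈ S₁ ∧ t.2.1 ∈ S₃ ∧ Par s (t.2.2 + b))

open Pool.Agent.H530.Ha Pool.Agent.H530.Hz Pool.Agent.H373R2.T7 in
lemma rough_eq {k : ℕ} (H : Fin k → ℤ) (y X : ℕ) :
    rough H y X = Pool.Agent.H530.Ha.RQ (QZ (fun _ => 1) H) X y := by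
  classical
  ext n
  rw [mem_RQ]
  unfold rough
  rw [mem_filter, mem_Icc]
  apply and_congr Iff.rfl
  constructor
  · rintro h p hp ⟨j, hj⟩
    rw [one_mul] at hj
    exact h p (mem_pz.1 hp).2 (mem_pz.1 hp).1 j hj
  · intro h p hp hpy j hj
    refine h p (mem_pz.2 ⟨hpy, hp⟩) ⟨j, ?_⟩
    rw [one_mul]
    exact hj

open Pool.Agent.H530.Ha in
lemma adz {k : ℕ} {H : Fin k → ℤ} (h : Admissible H) : AdZ (fun _ => 1) H := by
  intro p hp
  obtain ⟨n, hn⟩ := h p hp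
  refine ⟨n, fun j => ?_⟩
  rw [one_mul]
  exact hn j

lemma res {p : ℕ} (hp : 0 < p) (n : ℤ) : ∃ m : ℕ, ∀ c : ℤ, (p : ℤ) ∣ (m : ℤ) + c ↔ (p : ℤ) ∣ n + c := by
  have hp0 : (0 : ℤ) < p := by exact_mod_cast hp
  have hs : (((n % p).toNat : ℕ) : ℤ) = n % p := Int.toNat_of_nonneg (Int.emod_nonneg _ hp0.ne')
  refine ⟨(n % p).toNat, fun c => ?_⟩
  rw [hs]
  have h2 : n + c ≡ n % p + c [ZMOD p] := (Int.mod_modEq n p).symm.add_right _
  rw [← Int.modEq_zero_iff_dvd, ← Int.modEq_zero_iff_dvd]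
  exact ⟨fun h => h2.trans h, fun h => h2.symm.trans h⟩


open Pool.Agent.H530.Ha Pool.Agent.H530.Hz Pool.Agent.H373R2.T7 in
lemma locA {k : ℕ} {H₁ H₂ H₃ : Fin k → ℤ} (h : Soluble H₁ H₂ H₃) :
    LocA k (QZ (fun _ => 1) H₁) (QZ (fun _ => 1) H₃) (QZ (fun _ => 1) H₂) := by
  intro p hp
  have hpp := (mem_pz.1 hp).2
  obtain ⟨n, m, hn1, hn2, hn3⟩ := h p hpp (mem_pz.1 hp).1
  obtain ⟨a, h1⟩ := res hpp.pos n
  obtain ⟨b, h2⟩ := res hpp.pos m
  have e1 := (h1 (-n)).2 (by rw [add_neg_cancel]; exact dvd_zero _)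
  have e2 := (h2 (-m)).2 (by rw [add_neg_cancel]; exact dvd_zero _)
  refine ⟨a, b, ?_, ?_, ?_⟩
  · rintro ⟨j, hj⟩
    rw [one_mul] at hj
    exact hn1 j ((h1 _).1 hj)
  · rintro ⟨j, hj⟩
    rw [one_mul] at hj
    apply hn3 j
    have e3 := dvd_sub hj (dvd_add e1 (dvd_mul_of_dvd_right e2 2))
    have e4 : ((a + 2 * b : ℕ) : ℤ) + H₃ j - ((a : ℤ) + -n + 2 * (b + -m)) = n + 2 * m + H₃ j := by push_cast; ring
    rwa [e4] at e3
  · rintro ⟨j, hj⟩
    rw [one_mul] at hj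
    apply hn2 j
    have e3 := dvd_sub hj (dvd_add e1 e2)
    have e4 : ((a + b : ℕ) : ℤ) + H₂ j - ((a : ℤ) + -n + (b + -m)) = n + m + H₂ j := by push_cast; ring
    rwa [e4] at e3

open Pool.Agent.H530.Hz in
lemma progs_eq {k : ℕ} (H₁ H₂ H₃ : Fin k → ℤ) (X y : ℕ) :
    progs H₁ H₂ H₃ X y = rep3 (rough H₁ y X) (rough H₃ y X) (rough H₂ y X) 1 1 (-2) 0 := by
  classical
  unfold progs rep3
  apply filter_congr
  intro t _
  rw [one_mul, one_mul]
  constructor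
  · intro h
    have : ((t.1 : ℤ) + t.2.1) = 2 * t.2.2 := by exact_mod_cast h
    linarith
  · intro h
    have : ((t.1 : ℤ) + t.2.1) = 2 * t.2.2 := by linarith
    exact_mod_cast this

open Classical in
/-- the theorem for general tuples -/
theorem general (k : ℕ) (hk : 1 ≤ k) : ∃ c C : ℝ, 0 < c ∧ 0 < C ∧ ∃ A : ℕ, 1 ≤ A ∧ ∀ K : ℕ, A ≤ K → ∀ B : ℕ,
    ∃ X₀ y₀ : ℕ, ∀ X y : ℕ, X₀ ≤ X → y₀ ≤ y → y ^ K ≤ X → ∀ H₁ H₂ H₃ : Fin k → ℤ,
      Admissible H₁ → Admissible H₂ → Admissible H₃ → Soluble H₁ H₂ H₃ →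
      ∀ g : ℝ, g = ((rough H₁ y X).card : ℝ) * (rough H₃ y X).card * (rough H₂ y X).card / X →
      c * (X / Real.log X ^ k) ≤ (rough H₁ y X).card ∧
      c * (X ^ 2 / Real.log X ^ (3 * k)) ≤ g ∧
      c * g ≤ ((progs H₁ H₂ H₃ X y).filter (fun t => t.1 < t.2.2)).card ∧ ((progs H₁ H₂ H₃ X y).card : ℝ) ≤ C * g ∧
      ∀ b₁ b₂ b₃ : ℤ, |(b₁ : ℝ)| ≤ X * Real.log X ^ B → |(b₂ : ℝ)| ≤ X * Real.log X ^ B →
        |(b₃ : ℝ)| ≤ X * Real.log X ^ B →
        (∀ s₁ s₂ s₃ : Bool, |8 * ((pattern H₁ H₂ H₃ X y b₁ b₂ b₃ s₁ s₂ s₃).card : ℝ) - (progs H₁ H₂ H₃ X y).card| ≤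
          (1 / 2 : ℝ) ^ (K / A) * (progs H₁ H₂ H₃ X y).card) ∧
        ∀ S₁ S₃ : Finset ℕ, |((within H₁ H₂ H₃ X y S₁ S₃ b₂ true).card : ℝ) -
          (within H₁ H₂ H₃ X y S₁ S₃ b₂ false).card| ≤ (1 / 2 : ℝ) ^ (K / A) * g := by
  obtain ⟨c1, hc1, H1⟩ := Pool.Agent.H530.Ha.all_F k hk
  obtain ⟨K1, hK1, H1⟩ := H1 1 one_pos
  obtain ⟨c2, hc2, A2, hA2, H2⟩ := Pool.Agent.H530.Hz.F3ap k hk
  obtain ⟨C3, hC3, K3, hK3, X3, y3, H3⟩ := Pool.Agent.H530.Hz.F3up k hk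
  obtain ⟨A, hAL, hA1, H4⟩ := Pool.Agent.H530.Hz.F3sub k hk (A2 + K1 + K3)
  obtain ⟨c, hc⟩ : ∃ c : ℝ, c = min (min c1 c2) (c1 ^ 3) := ⟨_, rfl⟩
  have hcc1 : c ≤ c1 := by rw [hc]; exact (min_le_left _ _).trans (min_le_left _ _)
  have hcc2 : c ≤ c2 := by rw [hc]; exact (min_le_left _ _).trans (min_le_right _ _)
  have hcc3 : c ≤ c1 ^ 3 := by rw [hc]; exact min_le_right _ _
  have hc0 : 0 < c := by rw [hc]; exact lt_min (lt_min hc1 hc2) (by positivity)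
  refine ⟨c, C3, hc0, hC3, A, hA1, fun K hK B => ?_⟩
  obtain ⟨X1, y1, H1⟩ := H1 B
  obtain ⟨X2, y2, H2⟩ := H2 K (by omega) B
  obtain ⟨X4, y4, H4⟩ := H4 K hK B
  refine ⟨X1 + X2 + X3 + X4 + 2, y1 + y2 + y3 + y4 + 1, ?_⟩
  intro N y hN hy hyN H₁ H₂ H₃ h₁ h₂ h₃ hsol g hg
  have s₁ := Pool.Agent.H530.Ha.sv_QZ (adz h₁)
  have s₂ := Pool.Agent.H530.Ha.sv_QZ (adz h₂)
  have s₃ := Pool.Agent.H530.Ha.sv_QZ (adz h₃)
  have hNr : (2 : ℝ) ≤ N := by exact_mod_cast (by omega : 2 ≤ N)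
  have hlog : 0 < Real.log (N : ℝ) := Real.log_pos (by linarith)
  have hmono := Pool.Agent.H530.Hz.half_mono (K := K) hA2 (show A2 ≤ A by omega)
  have r1 := (H1 _ s₁ N y (by omega) (by omega) ((Nat.pow_le_pow_right (by omega) (by omega)).trans hyN)).1
  have r1' := (H1 _ s₃ N y (by omega) (by omega) ((Nat.pow_le_pow_right (by omega) (by omega)).trans hyN)).1
  have r1'' := (H1 _ s₂ N y (by omega) (by omega) ((Nat.pow_le_pow_right (by omega) (by omega)).trans hyN)).1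
  have r2 := H2 _ _ _ s₁ s₃ s₂ N y (by omega) (by omega) hyN (locA hsol)
  have r3 := H3 _ _ _ s₁ s₃ s₂ N y (by omega) (by omega) ((Nat.pow_le_pow_right (by omega) (by omega)).trans hyN)
    1 1 (-2) one_ne_zero one_ne_zero (by norm_num) 0
  have r4 := H4 _ _ _ s₁ s₃ s₂ N y (by omega) (by omega) hyN 1 1 (-2) one_ne_zero one_ne_zero (by norm_num) 0
  rw [← rough_eq] at r1 r1' r1''
  rw [← rough_eq, ← rough_eq, ← rough_eq, ← progs_eq] at r2 r3
  rw [← rough_eq, ← rough_eq, ← rough_eq, ← progs_eq] at r4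
  rw [← hg] at r2 r3 r4
  have hg0 : 0 ≤ g := by rw [hg]; positivity
  refine ⟨?_, ?_, ?_, r3, ?_⟩
  · refine le_trans ?_ r1
    exact mul_le_mul_of_nonneg_right hcc1 (by positivity)
  · have h0 : 0 ≤ c1 * (N / Real.log N ^ k) := by positivity
    have h5 : c1 * (N / Real.log N ^ k) * (c1 * (N / Real.log N ^ k)) * (c1 * (N / Real.log N ^ k)) / N ≤ g := by
      rw [hg]
      apply div_le_div_of_nonneg_right _ (by linarith)
      exact mul_le_mul (mul_le_mul r1 r1' h0 (Nat.cast_nonneg _)) r1'' h0 (by positivity)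
    have e : c1 * (N / Real.log N ^ k) * (c1 * (N / Real.log N ^ k)) * (c1 * (N / Real.log N ^ k)) / N =
        c1 ^ 3 * ((N : ℝ) ^ 2 / Real.log N ^ (3 * k)) := by
      have e2 : Real.log (N : ℝ) ^ (3 * k) = (Real.log (N : ℝ) ^ k) ^ 3 := by rw [mul_comm, pow_mul]
      rw [e2]
      field_simp
    rw [e] at h5
    refine le_trans ?_ h5
    exact mul_le_mul_of_nonneg_right hcc3 (by positivity)
  · refine le_trans (mul_le_mul_of_nonneg_right hcc2 hg0) ?_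
    convert r2.1
  · intro b₁ b₂ b₃ hb₁ hb₂ hb₃
    constructor
    · intro t₁ t₂ t₃
      have h := r2.2 b₁ b₃ b₂ hb₁ hb₃ hb₂ _ _ _ (Pool.Agent.H530.Hz.sg_cases t₁) (Pool.Agent.H530.Hz.sg_cases t₃)
        (Pool.Agent.H530.Hz.sg_cases t₂)
      rw [Pool.Agent.H530.Hz.pat3_card] at h
      have e1 : (progs H₁ H₂ H₃ N y).filter (fun t => Pool.Agent.H530.Ha.lz ((t.1 : ℤ) + b₁) = Pool.Agent.H530.Hz.sg t₁ ∧
          Pool.Agent.H530.Ha.lz ((t.2.1 : ℤ) + b₃) = Pool.Agent.H530.Hz.sg t₃ ∧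
          Pool.Agent.H530.Ha.lz ((t.2.2 : ℤ) + b₂) = Pool.Agent.H530.Hz.sg t₂) = pattern H₁ H₂ H₃ N y b₁ b₂ b₃ t₁ t₂ t₃ := by
        unfold pattern
        apply filter_congr
        intro t _
        unfold Par
        rw [Pool.Agent.H530.Hz.par_iff, Pool.Agent.H530.Hz.par_iff, Pool.Agent.H530.Hz.par_iff]
      have e2 : ((progs H₁ H₂ H₃ N y).filter (fun t => Pool.Agent.H530.Ha.lz ((t.1 : ℤ) + b₁) = Pool.Agent.H530.Hz.sg t₁ ∧
          Pool.Agent.H530.Ha.lz ((t.2.1 : ℤ) + b₃) = Pool.Agent.H530.Hz.sg t₃ ∧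
          Pool.Agent.H530.Ha.lz ((t.2.2 : ℤ) + b₂) = Pool.Agent.H530.Hz.sg t₂)).card =
          (pattern H₁ H₂ H₃ N y b₁ b₂ b₃ t₁ t₂ t₃).card := by rw [← e1]
      refine le_trans ?_ (h.trans (mul_le_mul_of_nonneg_right hmono (Nat.cast_nonneg _)))
      apply le_of_eq
      congr 3
      rw [← e2]
    · intro S₁ S₃
      have h := r4 b₂ hb₂ S₁ S₃
      refine le_trans (le_of_eq ?_) h
      have e3 : ∀ s : Bool, ((within H₁ H₂ H₃ N y S₁ S₃ b₂ s).card : ℝ) =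
          ∑ t ∈ (progs H₁ H₂ H₃ N y).filter (fun t => t.1 ∈ S₁ ∧ t.2.1 ∈ S₃),
            (if Pool.Agent.H530.Ha.lz ((t.2.2 : ℤ) + b₂) = Pool.Agent.H530.Hz.sg s then (1 : ℝ) else 0) := by
        intro s
        rw [← sum_filter, filter_filter, sum_const, nsmul_eq_mul, mul_one]
        unfold within
        congr 2
        apply filter_congr
        intro t _
        unfold Par
        rw [Pool.Agent.H530.Hz.par_iff, and_assoc]
      rw [e3, e3, ← sum_sub_distrib, ← abs_neg, ← sum_neg_distrib]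
      congr 1
      apply sum_congr rfl
      intro t _
      rcases Pool.Agent.H530.Hz.lz_cases ((t.2.2 : ℤ) + b₂) with h | h | ⟨h, _⟩ <;> rw [h] <;>
        norm_num [Pool.Agent.H530.Hz.sg]

lemma sol_self {k : ℕ} {H : Fin k → ℤ} (h : Admissible H) : Soluble H H H := by
  intro p hp _
  obtain ⟨n, hn⟩ := h p hp
  exact ⟨n, 0, hn, by simpa using hn, by simpa using hn⟩

open Classical in
/-- reflection of the progressions -/
lemma sym {k : ℕ} (H : Fin k → ℤ) (X y : ℕ) (b b' : ℤ) (s t : Bool) :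
    (pattern H H H X y b b' b s t s).card ≤
      2 * ((pattern H H H X y b b' b s t s).filter (fun u => u.1 < u.2.1)).card + (rough H y X).card := by
  obtain ⟨P, hP⟩ : ∃ P, P = pattern H H H X y b b' b s t s := ⟨_, rfl⟩
  rw [← hP]
  have h1 : P ⊆ P.filter (fun u => u.1 < u.2.1) ∪ (P.filter (fun u => u.2.1 < u.1) ∪ P.filter (fun u => u.1 = u.2.1)) := by
    intro u hu
    rw [mem_union, mem_union, mem_filter, mem_filter, mem_filter]
    rcases lt_trichotomy u.1 u.2.1 with h | h | h <;> tauto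
  have h2 : (P.filter (fun u => u.2.1 < u.1)).card ≤ (P.filter (fun u => u.1 < u.2.1)).card := by
    apply card_le_card_of_injOn (fun u => (u.2.1, u.1, u.2.2))
    · intro u hu
      rw [mem_coe, mem_filter] at hu
      rw [mem_coe, mem_filter]
      refine ⟨?_, hu.2⟩
      have h3 := hu.1
      rw [hP] at h3 ⊢
      unfold pattern progs at h3 ⊢
      rw [mem_filter, mem_filter, mem_product, mem_product] at h3 ⊢
      obtain ⟨⟨⟨q1, q2, q3⟩, q4⟩, q5, q6, q7⟩ := h3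
      refine ⟨⟨⟨q2, q1, q3⟩, ?_⟩, q6, q5, q7⟩
      simp only at q4 ⊢
      omega
    · rintro ⟨u1, u2, u3⟩ _ ⟨v1, v2, v3⟩ _ h
      simp only [Prod.mk.injEq] at h ⊢
      exact ⟨h.2.1, h.1, h.2.2⟩
  have h3 : (P.filter (fun u => u.1 = u.2.1)).card ≤ (rough H y X).card := by
    apply card_le_card_of_injOn (fun u => u.1)
    · intro u hu
      rw [mem_coe, mem_filter, hP] at hu
      have h3 := hu.1
      unfold pattern progs at h3
      rw [mem_filter, mem_filter, mem_product] at h3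
      exact h3.1.1.1
    · rintro ⟨u1, u2, u3⟩ hu ⟨v1, v2, v3⟩ hv h
      rw [mem_coe, mem_filter, hP] at hu hv
      have hu3 := hu.1
      have hv3 := hv.1
      unfold pattern progs at hu3 hv3
      rw [mem_filter, mem_filter, mem_product] at hu3 hv3
      have q1 := hu3.1.2
      have q2 := hv3.1.2
      have q3 := hu.2
      have q4 := hv.2
      simp only [Prod.mk.injEq] at h q1 q2 q3 q4 ⊢
      omega
  have h4 := (card_le_card h1).trans ((card_union_le _ _).trans (Nat.add_le_add_left (card_union_le _ _) _))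
  omega

open Classical in
/-- increasing progressions -/
theorem increasing (k : ℕ) (hk : 1 ≤ k) : ∃ c : ℝ, 0 < c ∧ ∃ A : ℕ, 1 ≤ A ∧ ∀ B : ℕ, ∃ X₀ y₀ : ℕ,
    ∀ X y : ℕ, X₀ ≤ X → y₀ ≤ y → y ^ A ≤ X → ∀ H : Fin k → ℤ, Admissible H → ∀ b b' : ℤ,
      |(b : ℝ)| ≤ X * Real.log X ^ B → |(b' : ℝ)| ≤ X * Real.log X ^ B → ∀ s t : Bool,
      c * (X ^ 2 / Real.log X ^ (3 * k)) ≤
        ((pattern H H H X y b b' b s t s).filter (fun u => u.1 < u.2.1)).card := by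
  obtain ⟨c, C, hc, hC, A, hA, H⟩ := general k hk
  refine ⟨c * c / 64, by positivity, A, hA, fun B => ?_⟩
  obtain ⟨X₀, y₀, H⟩ := H A le_rfl B
  obtain ⟨X1, hX1⟩ := Pool.Agent.H373R2.T7.ev_log' (2 * k) (32 / c ^ 3)
  refine ⟨X₀ + X1 + 2, y₀, ?_⟩
  intro X y hX hy hyX U hU b b' hb hb' s t
  obtain ⟨g1, g2, g3, g4, g5⟩ := H X y (by omega) hy hyX U U U hU hU hU (sol_self hU) _ rfl
  obtain ⟨g, hg⟩ : ∃ g : ℝ, g = ((rough U y X).card : ℝ) * (rough U y X).card * (rough U y X).card / X := ⟨_, rfl⟩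
  rw [← hg] at g2 g3 g4
  obtain ⟨G, hG⟩ : ∃ G : ℝ, G = ((rough U y X).card : ℝ) := ⟨_, rfl⟩
  have hXr : (2 : ℝ) ≤ X := by exact_mod_cast (by omega : 2 ≤ X)
  have hL : 0 < Real.log (X : ℝ) := Real.log_pos (by linarith)
  have hlog := hX1 X (by omega)
  have h1 := (g5 b b' b hb hb' hb).1 s t s
  have h2 := sym U X y b b' s t
  have h2' : ((pattern U U U X y b b' b s t s).card : ℝ) ≤
      2 * ((pattern U U U X y b b' b s t s).filter (fun u => u.1 < u.2.1)).card + (rough U y X).card := by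
    exact_mod_cast h2
  have h3 : (((progs U U U X y).filter (fun t => t.1 < t.2.2)).card : ℝ) ≤ (progs U U U X y).card := by
    exact_mod_cast card_filter_le _ _
  have hδ : (1 / 2 : ℝ) ^ (A / A) = 1 / 2 := by
    rw [Nat.div_self (by omega), pow_one]
  rw [hδ] at h1
  have h4 := (abs_le.1 h1).1
  rw [← hG] at h2' g1 hg
  have hg0 : 0 ≤ g := by rw [hg, hG]; positivity
  have h5 : G ≤ c * g / 32 := by
    have e1 : Real.log (X : ℝ) ^ (2 * k) = (Real.log (X : ℝ) ^ k) ^ 2 := by rw [mul_comm, pow_mul]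
    rw [e1] at hlog
    have e2 : √(X : ℝ) ≤ X := by
      rw [Real.sqrt_le_iff]
      exact ⟨by linarith, by nlinarith⟩
    have h6 : 32 * (Real.log (X : ℝ) ^ k) ^ 2 ≤ c ^ 3 * X := by
      have h7 := hlog.trans e2
      rw [div_mul_eq_mul_div, div_le_iff₀ (by positivity)] at h7
      linarith
    have h8 : 0 ≤ c * (X / Real.log X ^ k) := by positivity
    have h9 : (c * (X / Real.log X ^ k)) ^ 2 ≤ G ^ 2 := pow_le_pow_left₀ h8 g1 2
    have h10 : 32 * (X : ℝ) ≤ c * G ^ 2 := by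
      refine le_trans ?_ (mul_le_mul_of_nonneg_left h9 hc.le)
      have e3 : c * (c * (X / Real.log X ^ k)) ^ 2 = (c ^ 3 * X) * X / (Real.log X ^ k) ^ 2 := by
        field_simp
      rw [e3, le_div_iff₀ (by positivity)]
      calc 32 * (X : ℝ) * (Real.log X ^ k) ^ 2 = (32 * (Real.log (X : ℝ) ^ k) ^ 2) * X := by ring
        _ ≤ (c ^ 3 * X) * X := mul_le_mul_of_nonneg_right h6 (by linarith)
    have hG0 : 0 ≤ G := by rw [hG]; positivity
    rw [hg]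
    have e4 : c * (G * G * G / X) / 32 = G * (c * G ^ 2) / (32 * X) := by
      field_simp
    rw [e4, le_div_iff₀ (by linarith)]
    exact mul_le_mul_of_nonneg_left h10 hG0
  have h6 : c * c / 64 * ((X : ℝ) ^ 2 / Real.log X ^ (3 * k)) ≤ c * g / 64 := by
    have := mul_le_mul_of_nonneg_left g2 hc.le
    linarith
  refine h6.trans ?_
  linarith

/-- the pattern of the twins -/
def twin : Fin 2 → ℤ := ![0, 2]

lemma twin_adm : Admissible twin := by
  intro p hp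
  rcases hp.eq_two_or_odd' with rfl | h
  · refine ⟨1, fun i => ?_⟩
    fin_cases i <;> simp [twin] <;> omega
  · by_cases h3 : p = 3
    · subst h3
      refine ⟨2, fun i => ?_⟩
      fin_cases i <;> simp [twin] <;> omega
    · have h2 := hp.two_le
      have h5 : 3 < p := by
        have : p ≠ 2 := by rintro rfl; exact absurd h (by decide)
        omega
      refine ⟨1, fun i hd => ?_⟩
      have : (p : ℤ) ≤ 3 := by
        fin_cases i
        · have := Int.le_of_dvd (by norm_num [twin]) hd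
          simp [twin] at this
          omega
        · have := Int.le_of_dvd (by norm_num [twin]) hd
          simp [twin] at this
          omega
      omega

open Classical in
/-- **Progressions of three terms with prescribed parities.** -/
theorem result :
    (∀ k : ℕ, 1 ≤ k → ∃ c C : ℝ, 0 < c ∧ 0 < C ∧ ∃ A : ℕ, 1 ≤ A ∧ ∀ K : ℕ, A ≤ K → ∀ B : ℕ,
      ∃ X₀ y₀ : ℕ, ∀ X y : ℕ, X₀ ≤ X → y₀ ≤ y → y ^ K ≤ X → ∀ H₁ H₂ H₃ : Fin k → ℤ,
        Admissible H₁ → Admissible H₂ → Admissible H₃ → Soluble H₁ H₂ H₃ →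
        ∀ g : ℝ, g = ((rough H₁ y X).card : ℝ) * (rough H₃ y X).card * (rough H₂ y X).card / X →
        c * (X / Real.log X ^ k) ≤ (rough H₁ y X).card ∧
        c * (X ^ 2 / Real.log X ^ (3 * k)) ≤ g ∧
        c * g ≤ ((progs H₁ H₂ H₃ X y).filter (fun t => t.1 < t.2.2)).card ∧
        ((progs H₁ H₂ H₃ X y).card : ℝ) ≤ C * g ∧
        ∀ b₁ b₂ b₃ : ℤ, |(b₁ : ℝ)| ≤ X * Real.log X ^ B → |(b₂ : ℝ)| ≤ X * Real.log X ^ B →
          |(b₃ : ℝ)| ≤ X * Real.log X ^ B →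
          (∀ s₁ s₂ s₃ : Bool, |8 * ((pattern H₁ H₂ H₃ X y b₁ b₂ b₃ s₁ s₂ s₃).card : ℝ) -
            (progs H₁ H₂ H₃ X y).card| ≤ (1 / 2 : ℝ) ^ (K / A) * (progs H₁ H₂ H₃ X y).card) ∧
          ∀ S₁ S₃ : Finset ℕ, |((within H₁ H₂ H₃ X y S₁ S₃ b₂ true).card : ℝ) -
            (within H₁ H₂ H₃ X y S₁ S₃ b₂ false).card| ≤ (1 / 2 : ℝ) ^ (K / A) * g) ∧
    (∀ k : ℕ, 1 ≤ k → ∃ c : ℝ, 0 < c ∧ ∃ A : ℕ, 1 ≤ A ∧ ∀ B : ℕ, ∃ X₀ y₀ : ℕ,
      ∀ X y : ℕ, X₀ ≤ X → y₀ ≤ y → y ^ A ≤ X → ∀ H : Fin k → ℤ, Admissible H → ∀ b b' : ℤ,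
        |(b : ℝ)| ≤ X * Real.log X ^ B → |(b' : ℝ)| ≤ X * Real.log X ^ B → ∀ s t : Bool,
        c * (X ^ 2 / Real.log X ^ (3 * k)) ≤
          ((pattern H H H X y b b' b s t s).filter (fun u => u.1 < u.2.1)).card) ∧
    Admissible twin ∧ ∀ (k : ℕ) (H : Fin k → ℤ), Admissible H → Soluble H H H :=
  ⟨general, increasing, twin_adm, fun _ _ h => sol_self h⟩

end Pool.Agent.Results.MP_a1f59e_nt.ThreeTermParities
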